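import Pool.Agent.W805.LR.Stm7

/-! Project PD: basic facts about wrapped kernels. -/

set_option autoImplicit false

namespace Pool.Agent.W240.PD.WR

open Finset Filter Topology
open Pool.Agent.W805.LR Pool.Agent.W805.PD

section

variable {d L : ℕ} {φ : (Fin d → ℤ) → ℝ}

open Classical in
/-- the summand -/
noncomputable def tm (φ : (Fin d → ℤ) → ℝ) (x y : Fin d → ZMod L) (z : Fin d → ℤ) : ℝ :=
  if ∀ a, x a + ((z a : ℤ) : ZMod L) = y a then φ z else 0

theorem tm_nonneg (hφ : IsKer d φ) (x y : Fin d → ZMod L) (z : Fin d → ℤ) : 0 ≤ tm φ x y z := by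
  unfold tm
  split_ifs
  · exact hφ.nonneg z
  · exact le_rfl

theorem tm_le (hφ : IsKer d φ) (x y : Fin d → ZMod L) (z : Fin d → ℤ) : tm φ x y z ≤ φ z := by
  unfold tm
  split_ifs
  · exact le_rfl
  · exact hφ.nonneg z

theorem tm_sum (hφ : IsKer d φ) (x y : Fin d → ZMod L) : Summable (tm φ x y) :=
  Summable.of_nonneg_of_le (tm_nonneg hφ x y) (tm_le hφ x y) hφ.summable

theorem wrap_eq (x y : Fin d → ZMod L) (h : x ≠ y) : wrap φ x y = ∑' z, tm φ x y z := by
  unfold wrap
  rw [if_neg h]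
  rfl

theorem wrap_self (x : Fin d → ZMod L) : wrap φ x x = 0 := by
  unfold wrap
  rw [if_pos rfl]

theorem wrap_le (hφ : IsKer d φ) (x y : Fin d → ZMod L) : wrap φ x y ≤ ∑' z, tm φ x y z := by
  by_cases h : x = y
  · subst h
    rw [wrap_self]
    exact tsum_nonneg (tm_nonneg hφ x x)
  · exact (wrap_eq x y h).le

theorem wrap_nonneg (hφ : IsKer d φ) (x y : Fin d → ZMod L) : 0 ≤ wrap φ x y := by
  by_cases h : x = y
  · subst h
    rw [wrap_self]
  · rw [wrap_eq x y h]
    exact tsum_nonneg (tm_nonneg hφ x y)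

theorem wrap_symm (hφ : IsKer d φ) (x y : Fin d → ZMod L) : wrap φ x y = wrap φ y x := by
  by_cases h : x = y
  · rw [h]
  · rw [wrap_eq x y h, wrap_eq y x (Ne.symm h), ← (Equiv.neg (Fin d → ℤ)).tsum_eq (tm φ y x)]
    refine tsum_congr fun z => ?_
    unfold tm
    have h1 : (∀ a, x a + ((z a : ℤ) : ZMod L) = y a) ↔
        ∀ a, y a + (((Equiv.neg (Fin d → ℤ)) z a : ℤ) : ZMod L) = x a := by
      refine forall_congr' fun a => ?_
      rw [Equiv.neg_apply, Pi.neg_apply, Int.cast_neg]
      constructor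
      · intro h'
        rw [← h']
        ring
      · intro h'
        rw [← h']
        ring
    by_cases h2 : ∀ a, x a + ((z a : ℤ) : ZMod L) = y a
    · rw [if_pos h2, if_pos (h1.1 h2), Equiv.neg_apply, hφ.even]
    · rw [if_neg h2, if_neg (fun h3 => h2 (h1.2 h3))]

theorem wrap_row [NeZero L] (hφ : IsKer d φ) (x : Fin d → ZMod L) :
    ∑ y, wrap φ x y ≤ ∑' z, φ z := by
  calc ∑ y, wrap φ x y ≤ ∑ y, ∑' z, tm φ x y z := Finset.sum_le_sum fun y _ => wrap_le hφ x y
    _ = ∑' z, ∑ y, tm φ x y z := (Summable.tsum_finsetSum fun y _ => tm_sum hφ x y).symm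
    _ = ∑' z, φ z := by
        refine tsum_congr fun z => ?_
        rw [Finset.sum_eq_single (fun a => x a + ((z a : ℤ) : ZMod L))]
        · unfold tm
          rw [if_pos fun a => rfl]
        · intro y _ hy
          unfold tm
          rw [if_neg]
          intro h
          exact hy (funext fun a => (h a).symm)
        · intro h
          exact absurd (Finset.mem_univ _) h

theorem wrap_ge [NeZero L] (hφ : IsKer d φ) (x y : Fin d → ZMod L) (h : x ≠ y) :
    φ (fun a => ((y a).val : ℤ) - ((x a).val : ℤ)) ≤ wrap φ x y := by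
  rw [wrap_eq x y h]
  refine le_trans (le_of_eq ?_) ((tm_sum hφ x y).le_tsum
    (fun a => ((y a).val : ℤ) - ((x a).val : ℤ)) fun z _ => tm_nonneg hφ x y z)
  unfold tm
  rw [if_pos]
  intro a
  push_cast
  rw [ZMod.natCast_zmod_val, ZMod.natCast_zmod_val]
  ring

end

theorem main : S_wrap := by
  intro d L _ σ lam φ hφ
  refine ⟨wrap_symm hφ, wrap_nonneg hφ, wrap_row hφ, wrap_ge hφ, fun h => ⟨wrap_symm hφ,
    fun x => wrap_self x, fun x y hxy => ?_⟩⟩
  refine le_trans ?_ (wrap_ge hφ x y hxy)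
  have hz : (fun a => ((y a).val : ℤ) - ((x a).val : ℤ)) ≠ 0 := by
    intro h0
    apply hxy
    funext a
    apply ZMod.val_injective L
    have := congrFun h0 a
    simp only [Pi.zero_apply] at this
    omega
  refine le_trans (le_of_eq ?_) (h _ hz)
  have : bdist x y = univ.sup fun a => (((y a).val : ℤ) - ((x a).val : ℤ)).natAbs := by
    unfold bdist
    congr 1
    funext a
    rw [← Int.natAbs_neg]
    congr 1
    ring
  rw [this]

end Pool.Agent.W240.PD.WR
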